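import Pool.Agent.Q202.AR.Sets

set_option autoImplicit false

/-!
# Set intersection queries: approximating polynomials, in particular quantum queries

A family of `k` subsets of a universe with `u` elements, `k u ≤ N`, is preprocessed. The memory has
`M` real numbers (for instance bits), which are arbitrary functions of the family. The query `i, j`
evaluates a real polynomial of degree at most `T` in these numbers. The value, which is between `0`
and `1`, is on the average over the random choice of the structure at least `2 / 3` if the sets `i`
and `j` intersect and at most `1 / 3` if they are disjoint.

The acceptance probability of a randomised algorithm with `T` adaptive probes of bits is such a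
polynomial, and that of a quantum algorithm with `T / 2` probes of bits (R. Beals et al.), with
two-sided error. A cell of `w` bits can be replaced by the `2 ^ w` indicators of its contents.

A number of the memory *entangles* the pair `i, j` at the family `F`, if its real rank, as a function
of the sets `i` and `j`, the others being as in `F`, is larger than `r`. For example, a number which
depends on one of the two sets only has rank `1`, a bit which is described by a communication
protocol of `b` bits between the two sets has rank at most `2 ^ b`, and a real polynomial of degree
`d` in the membership bits of the whole family has rank at most `(u + 1) ^ d`.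

Theorem. Let `L = T ⌈log₂ ((M + 1) r)⌉ + 4` and `N ≥ 200 L ^ 2`. There are `k`, `u` with `k u ≤ N`
such that for all such random structures and for every family `F` the expected number of pairs
entangled by the numbers of the memory is at least `N ^ 2 / (720000 * L ^ 4)`.

So if every number entangles at most `R` pairs then `M ≥ N ^ 2 / (720000 * L ^ 4 * R)`. The bound
`Ω~(N ^ 2 / T ^ 4)` is the right one for such queries: store the answer for all pairs of sets with
more than `T ^ 2` elements, and find a common element with Grover's algorithm, in a list of the
smaller set, if one of the sets has at most `T ^ 2` elements.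

Proof. Let `u = 100 L ^ 2`. If no number entangles the pair `i, j` then the matrix `A` of the values,
as a function of the two sets, has entries between `0` and `1` and rank at most
`((M + 1) r) ^ T ≤ 2 ^ (L - 4)`. Consider points `x`, `y` in `{0, 1, 2, 3} ^ u` with the sets
`{e : x_e = 0}`, `{e : y_e = 0}`, and for `-1/3 ≤ θ ≤ 1/3` the weights
`∏ (1 + θ (4 [x_e = y_e] - 1)) / 16 ^ u`. The average `F(θ) = ∑ a_s θ ^ s` of `A` for these weights
satisfies `∑ |a_s| ≤ 2 ^ (L - 4)`, as the products of `A` with orthogonal matrices are small, so it
is nearly a polynomial of degree `L` for `|θ| ≤ 1/3`. For `θ = -1/3` the sets are disjoint; for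
`θ ≥ -1/3 + 16 / u` they intersect with probability at least `15 / 16`. So a polynomial of degree `L`
would be between `1/2` and `1` (nearly) on this interval and at most `1/3` (nearly) in `-1/3`; this
contradicts the extremal property of Chebyshev polynomials. Members of the random family with an
entangling number have probability at least `1/8`.
-/

namespace Pool.Agent.Results.MP_f326ae_lc.ApproximatingPolynomials

open Pool.Agent.Q202.AR

theorem result (N T M r L : ℕ) (hr : 1 ≤ r)
    (hL : L = T * Nat.clog 2 ((M + 1) * r) + 4) (hN : 200 * L ^ 2 ≤ N) :
    ∃ k u : ℕ, k * u ≤ N ∧ ∀ (Ω : Type) [Fintype Ω] (D : Ω → SetDS k u M), SolvesSets D T →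
      ∀ F : Fin k → Finset (Fin u),
        N ^ 2 * Nat.card Ω ≤ 720000 * L ^ 4 *
          Nat.card {q : Ω × (Fin k × Fin k) × Fin M //
            q.2.1.1 < q.2.1.2 ∧ (D q.1).Entangles r F q.2.1.1 q.2.1.2 q.2.2} :=
  sets_bound N T M r L hr hL hN

end Pool.Agent.Results.MP_f326ae_lc.ApproximatingPolynomials
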