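import Pool.Agent.Q202.RC.Sets

set_option autoImplicit false

/-!
# Set intersection queries: polynomial queries to memory bits of small rank

A family of `k` subsets of a universe with `u` elements, `k u ≤ N`, is preprocessed. The memory has
`M` bits, which are arbitrary functions of the family. The query `i, j` evaluates a set of
polynomials over a field `K`, of degree at most `T`, in the memory bits. They all vanish if the sets
`i` and `j` intersect; if they are disjoint, then one of them does not vanish with probability at
least `2 ^ (- μ)` over the random choice of the structure.

This is a common generalisation of one-sided algorithms: the number of accepting computations with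
`T` adaptive or nondeterministic probes of bits is such a polynomial over `ℚ` (so a certificate of
`T` memory bits for the disjointness is enough), and the amplitudes of the accepting states after `T`
quantum probes are such polynomials over `ℂ`.

A memory bit *entangles* the pair `i, j` at the family `F`, if its rank over `K`, as a function of
the sets `i` and `j`, the others being as in `F`, is larger than `r`. For example, a bit which
depends on one of the two sets only has rank `1`, a bit which is described by a communication
protocol of `b` bits between the two sets has rank at most `2 ^ b`, and a bit which is a polynomial
of degree `d` over `K` in the membership bits of the whole family has rank at most `(u + 1) ^ d`.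

Theorem. Let `L = T ⌈log₂ ((M + 1) r)⌉ + μ + 1` and `N ≥ 2 L`. There are `k`, `u` with `k u ≤ N` such
that for all such random structures and for every family `F` the expected number of pairs entangled
by the memory bits is at least `N ^ 2 / (18 * 2 ^ μ * L ^ 2)`.

So if every memory bit entangles at most `R` pairs then `M ≥ N ^ 2 / (18 * 2 ^ μ * L ^ 2 * R)`: the
space is `Ω~(N ^ 2 / T ^ 2)` for the emptiness queries if `R` and `log r` are polylogarithmic, as in
the known structures, and if no bit entangles any pair (for instance if all memory bits are
polynomials of polylogarithmic degree over `K`) then no space is enough.

Proof. Let `u = L`. If no memory bit entangles the pair then all polynomials of degree at most `T` in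
the memory bits are, as functions of the second set `y`, combinations of the same
`((M + 1) r) ^ T ≤ 2 ^ (u - μ - 1)` functions, with coefficients which depend on `x` and on the
polynomial. Consider the sets `x` for which some polynomial `v (x)` of the query does not vanish at
`(x, xᶜ)`. The functions `y ↦ p_{v (x)} (x, y)` of these `x` are linearly independent, as
`p (x, yᶜ) = 0` unless `x ⊆ y`. So there are at most `2 ^ (u - μ - 1)` such sets, for the members of
the family of structures with no entangling bit; but there are `2 ^ (u - μ)` on the average.
-/

namespace Pool.Agent.Results.MP_f326ae_lc.PolynomialQueries

open Pool.Agent.Q202.RC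

theorem result (K : Type) [Field K] (N T M r μ L : ℕ) (hr : 1 ≤ r)
    (hL : L = T * Nat.clog 2 ((M + 1) * r) + μ + 1) (hN : 2 * L ≤ N) :
    ∃ k u : ℕ, k * u ≤ N ∧ ∀ (Ω : Type) [Fintype Ω] (D : Ω → SetDS K k u M), SolvesSets D T μ →
      ∀ F : Fin k → Finset (Fin u),
        N ^ 2 * Nat.card Ω ≤ 18 * 2 ^ μ * L ^ 2 *
          Nat.card {q : Ω × (Fin k × Fin k) × Fin M //
            q.2.1.1 < q.2.1.2 ∧ (D q.1).Entangles r F q.2.1.1 q.2.1.2 q.2.2} :=
  sets_bound K N T M r μ L hr hL hN

end Pool.Agent.Results.MP_f326ae_lc.PolynomialQueries
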