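import Pool.Agent.Q202.AR.Report

set_option autoImplicit false

/-!
# SetIntersection: the conjectured tradeoff for quantum queries to memory bits of small rank

A family of `κ` subsets of a universe with `u` elements, `κ u ≤ N`, is preprocessed. The memory has
`M` bits, which are arbitrary functions of the family. The query `i, j` reports a set, by a random
or quantum algorithm: for every set `O` the probability that `O` is reported is a real polynomial of
degree at most `C T` in the bits of the memory; for all contents of the memory these numbers are
nonnegative with sum at most `1` (the algorithm may also fail). If the sets `i` and `j` have at most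
`32 T` common elements then their intersection is reported with probability at least `1 / 2`, over
the random choice of the structure and the random choices of the query algorithm.

A quantum algorithm which answers queries with at most `c (T + op)` probes of bits is of this kind,
with `C = 66 c`: it is stopped after `33 c T` probes, and the probabilities of the outputs after `t`
probes are polynomials of degree at most `2 t` (R. Beals et al.).

A bit of the memory *entangles* the pair `i, j` at the family `F`, if its real rank, as a function
of the sets `i` and `j`, the others being as in `F`, is larger than `r`. For example, a bit which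
depends on one of the two sets only has rank at most `1`, a bit which is described by a
communication protocol of `b` bits between the two sets has rank at most `2 ^ b`, and a real
polynomial of degree `d` in the membership bits of the whole family has rank at most `(u + 1) ^ d`.

Theorem. Let `L = ⌈log₂ ((M + 1) r (N + 1))⌉ + 1` and `N ≥ 6291456 (C + 78) ^ 2 L ^ 2 T`. There are
`κ`, `u` with `κ u ≤ N` such that for all such random structures and for every family `F` the
expected number of pairs entangled by the bits of the memory is at least
`N ^ 2 / (10 ^ 14 * (C + 78) ^ 4 * L ^ 4 * T)`.

So if every bit entangles at most `R` pairs then `M ≥ N ^ 2 / (10 ^ 14 * (C + 78) ^ 4 * L ^ 4 * T * R)`: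
the conjectured bound `Ω~(N ^ 2 / T)` holds for quantum algorithms, if `R` and `log r` are
polylogarithmic, as in the known structure with space `O(N ^ 2 / T)`. (To decide whether two sets
intersect, quantum algorithms are better than classical ones, see `ApproximatingPolynomials`; they
are not better if the intersection is to be reported in time `O(T + op)`.)

Proof. Let `m = 2 T`, `k = 8 m` and `u = 3145728 (C + 78) ^ 2 L ^ 2 T`. Suppose that at most `4 m`
bits entangle the pair `i, j`, and guess these bits: the correct guess has probability `2 ^ (-4 m)`.
The probability `A (x, y)` that a set `O ⊆ x ∩ y` with `k ≤ |O| ≤ 2 k` is reported is a matrix of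
rank at most `2 ^ (L T (C + 32))` with entries between `0` and `1`; it is `0` if `|x ∩ y| < k` and at
least `2 ^ (-4 m - 2)` if `k ≤ |x ∩ y| ≤ 2 k`. Its averages for the product measures on pairs of
sets for which the size of the intersection has a binomial distribution with mean `λ k`, for
`0 ≤ λ ≤ u / (8 k)`, are up to `2 ^ (-23 m)` values of a polynomial `P (λ)` of degree
`d = L T (C + 78)` (see `ApproximatingPolynomials`), which is between `0` and `1` (nearly), at most
`2 ^ (1 - 23 m)` for `λ ≤ 1/20` (a binomial tail), and at least `2 ^ (-4 m - 3) - 2 ^ (-23 m)` for
`λ = 3/2`. By the inequality of V. Markov for the derivatives in the end point of the interval, `P`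
is for `λ ≤ 3/2` up to `2 ^ (1 - 13 m) (2 λ / 3) ^ m` a polynomial of degree less than `m`, and such a
polynomial grows at most by the factor `120 ^ m` from `[0, 1/20]` to `3/2`. This is a contradiction.
-/

namespace Pool.Agent.Results.MP_f326ae_lc.QuantumReporting

open Pool.Agent.Q202.AR

theorem result (N T C M r L : ℕ) (hT : 1 ≤ T) (hr : 1 ≤ r)
    (hL : L = Nat.clog 2 ((M + 1) * r * (N + 1)) + 1)
    (hN : 6291456 * (C + 78) ^ 2 * L ^ 2 * T ≤ N) :
    ∃ κ u : ℕ, κ * u ≤ N ∧ ∀ (Ω : Type) [Fintype Ω] (D : Ω → ReportDS κ u M),
      Reports D (C * T) (32 * T) → ∀ F : Fin κ → Finset (Fin u),
        N ^ 2 * Nat.card Ω ≤ 10 ^ 14 * (C + 78) ^ 4 * L ^ 4 * T *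
          Nat.card {q : Ω × (Fin κ × Fin κ) × Fin M //
            q.2.1.1 < q.2.1.2 ∧ (D q.1).Entangles r F q.2.1.1 q.2.1.2 q.2.2} :=
  report_bound N T C M r L hT hr hL hN

end Pool.Agent.Results.MP_f326ae_lc.QuantumReporting
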