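import Pool.Agent.Q226.DSI.Main

/-!
# SetIntersection with unreliable negations: space `Ω~(N ^ 2 / T)`

A family of `m` subsets of a universe with `n` elements, `m n ≤ N`, is given by bits: for each set
`i`, each element `e` and each tag `k < K`, the bit of the position `((i, e), k)` tells whether `e`
is in the set `i`, written down with the tag `k`. Only inputs with at most one tag for each pair
`(i, e)` are considered; the tags have no meaning.

The model (`LiteralDS`): `s` cells; each cell contains an arbitrary nondecreasing real function of
the bits and of the negated bits (unlimited preprocessing, unlimited word length). The query `(i, j)`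
reads cells adaptively and reports a set, which is a nondecreasing function of the memory. The
structure may be random (a finite family, one member is chosen uniformly).

Faults: each negated bit (the information that there is no `1` at a position) is stuck at `0`,
independently with probability `1 / D`. Everything else is reliable.

Theorem. Let `N ≥ 2`, `0 < δ ≤ 1 / 2`, `C, T ≥ 1`, let the fault rate `1 / D` be as small as one
likes and `K ≥ D log (2 N / δ)`. There are `m`, `n` with `m n ≤ N` such that every random structure
with `s` cells for families of `m` subsets of `{0, …, n - 1}` for which
* every element of the intersection is reported with probability at least `1 / 2 + 2 δ` under faults,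
* every other element is reported with probability at most `1 / 2 - δ` without faults, and
* the expected number of cells read is at most `C (T + op)`, whatever the faults are,
satisfies `δ ^ 3 N ^ 2 ≤ 10 ^ 5 C ^ 2 T s (log₂ (N / δ)) ^ 3`.

* If the negated bits are reliable, then two cells are enough in this model: bits and negated bits
  together form an antichain, so two nondecreasing functions can contain a code of the family and its
  negative, and these two numbers again form an antichain. The theorem says that no such use of the
  negations works if they are unreliable at a rate as small as one likes: then the space
  `Ω~(N ^ 2 / T)` of the conjecture is necessary.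
* For `D = 1` all negated bits are `0`. This is the case of monotone structures, which is the
  starting result `AdaptiveMonotone` (without tags); it is used in the proof.

The proof: every pair `(i, e)` of a family gets a random tag. The negated bits of the positions that
belong to these tags are as good as faulty ones, because with high probability every pair has a
faulty position. So all negated bits which depend on the family can be replaced by `0`, which gives a
randomised monotone structure with the same number of cells.
-/

set_option autoImplicit false

namespace Pool.Agent.Results.MP_f326ae_lc.UnreliableNegations

open Pool.Agent.Q226.DSI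

/-- Let `N ≥ 2`, `0 < δ ≤ 1 / 2`, `C ≥ 1`, `T ≥ 1`, `D ≥ 1` and `K ≥ D log (2 N / δ)`. There are `m`
and `n` with `m n ≤ N` such that for every `s` and every random data structure `P ω`, `ω ∈ Ω`, with
`s` cells that contain nondecreasing functions of the bits and of the negated bits: if `P` solves
SetIntersection with negated bits that are stuck at `0` with probability `1 / D` (`Solves`: elements
of the intersection are reported with probability at least `1 / 2 + 2 δ` under faults, other elements
with probability at most `1 / 2 - δ` without faults, and at most `C * (T + op)` cells are read on the
average over `ω`, whatever the faults are), then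
`δ ^ 3 N ^ 2 ≤ 10 ^ 5 C ^ 2 T s (log₂ (N / δ)) ^ 3`. -/
theorem result (N : ℕ) (hN : 2 ≤ N) (δ C T : ℝ) (hδ : 0 < δ) (hδ2 : δ ≤ 1 / 2) (hC : 1 ≤ C)
    (hT : 1 ≤ T) (D K : ℕ) (hD : 1 ≤ D) (hK : D * Real.log (2 * N / δ) ≤ K) :
    ∃ m n : ℕ, m * n ≤ N ∧ ∀ (s : ℕ) (Ω : Type) [Fintype Ω] [Nonempty Ω]
      (P : Ω → LiteralDS m n K s), Solves P D δ C T →
        δ ^ 3 * (N : ℝ) ^ 2 ≤ 10 ^ 5 * C ^ 2 * T * s * (Real.logb 2 (N / δ)) ^ 3 :=
  main hN hδ hδ2 hC hT hD hK

end Pool.Agent.Results.MP_f326ae_lc.UnreliableNegations
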